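import Pool.Agent.H72.PNF.S2
import Pool.Agent.H44.PRK.MLGK

/-!
# PNF, row MLGN: the group of the types of the classes, and the Selmer groups of the twists
-/

set_option autoImplicit false

namespace Pool.PNF

open Polynomial Matrix NumberField IsDedekindDomain Pool.HYP Pool.TOW Pool.AVS Pool.T1 Pool.NF
  Pool.PRK Pool.PRK.Mlgk

theorem locSol_one {L : Type} [Field L] (f : L[X]) : LocSol f (1 : L[X]) := by
  refine ⟨1, 0, 1, monic_one, isCoprime_one_left, one_dvd _, ?_⟩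
  simp

open Classical in
/-- MLGN. -/
theorem mlgn (hTAKN : TAKNStmt) (hSGK : SGKStmt) (hSELN : SELNStmt) (hSLN : SLNStmt)
    (hL2M : L2MStmt) (hL2D : L2DStmt) : MLGNStmt := by
  intro K _ _ Ram hRec hCg D Y hOk hY hRam f hf ϖ hUni hPat
  have hm : f.Monic := hf.1.1
  have hdg : f.natDegree = 3 := hf.1.2.1
  have hZ : ∀ P ∈ D.T, Zer P.asIdeal (f - (X - C (D.c P)) * D.γ P) := hf.1.2.2.2.1
  have h2T : ∀ P ∈ D.T, (2 : 𝓞 K) ∉ P.asIdeal := fun P hP h2 =>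
    Finset.disjoint_left.1 hOk.1 hP (hOk.2.2.2 P (Or.inl h2))
  have hTA := fun (P : HeightOneSpectrum (𝓞 K)) (hP : P ∈ D.T) =>
    hTAKN K P (ϖ P) (h2T P hP) (hUni P hP).1 (hUni P hP).2 (D.c P) (D.γ P) f
      (hOk.2.1 P hP) hm hdg (hZ P hP)
  set Q := ((AdjoinRoot (fk K f))ˣ ⧸ SqG (fk K f)) with hQ
  -- types of classes
  let TyX : Q → HeightOneSpectrum (𝓞 K) → Ty → Prop := fun ξ P x =>
    ∃ (u : (AdjoinRoot (fk K f))ˣ) (α : K[X]), (QuotientGroup.mk u : Q) = ξ ∧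
      AdjoinRoot.mk (fk K f) α = (u : AdjoinRoot (fk K f)) ∧ IsCoprime α (fk K f) ∧
      NSq (fk K f) α ∧ TyK P.asIdeal (ϖ P) (D.c P) (D.γ P) f x α
  have hrep : ∀ (ξ : Q) (P : HeightOneSpectrum (𝓞 K)), P ∈ D.T → ∀ x : Ty, TyX ξ P x →
      ∀ (u : (AdjoinRoot (fk K f))ˣ) (α : K[X]), (QuotientGroup.mk u : Q) = ξ →
      AdjoinRoot.mk (fk K f) α = (u : AdjoinRoot (fk K f)) →
      TyK P.asIdeal (ϖ P) (D.c P) (D.γ P) f x α := by
    rintro ξ P hP x ⟨u', α', hu', hα', hc', hn', ht'⟩ u α hu hα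
    obtain ⟨s, hs, hd⟩ := rep_rel (hu'.trans hu.symm) hα' hα
    exact (hTA P hP).2.2.1 α' α s x hc' hn' hs hd ht'
  have hRcT : ∀ ξ ∈ RcG K D.T f, ∀ P ∈ D.T, ∃ x, TyX ξ P x := by
    rintro ξ ⟨u, α, hu, hα, hU⟩ P hP
    obtain ⟨x, hx, -⟩ := (hTA P hP).1 α hU.1 hU.2.1
    exact ⟨x, u, α, hu, hα, hU.1, hU.2.1, hx⟩
  have huniq : ∀ (ξ : Q) (P : {P : HeightOneSpectrum (𝓞 K) // P ∈ D.T}) (x y : Ty), TyX ξ P x →
      TyX ξ P y → x = y := by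
    rintro ξ P x y hx ⟨u, α, hu, hα, hc, hn, ht⟩
    have hx' := hrep ξ P P.2 x hx u α hu hα
    exact ((hTA P P.2).1 α hc hn).unique hx' ht
  have htmul : ∀ (ξ ξ' : Q) (P : {P : HeightOneSpectrum (𝓞 K) // P ∈ D.T}) (x y : Ty),
      TyX ξ P x → TyX ξ' P y → TyX (ξ * ξ') P (x + y) := by
    rintro ξ ξ' P x y ⟨u, α, hu, hα, hc, hn, ht⟩ ⟨u', α', hu', hα', hc', hn', ht'⟩
    refine ⟨u * u', α * α', ?_, ?_, hc.mul_left hc', nsq_mul hn hn',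
      (hTA P P.2).2.1 α α' x y hc hn hc' hn' ht ht'⟩
    · rw [QuotientGroup.mk_mul, hu, hu']
    · rw [Units.val_mul, map_mul, hα, hα']
  have hRmul : ∀ ξ ∈ RcG K D.T f, ∀ ξ' ∈ RcG K D.T f, ξ * ξ' ∈ RcG K D.T f := by
    rintro ξ ⟨u, α, hu, hα, hU⟩ ξ' ⟨u', α', hu', hα', hU'⟩
    refine ⟨u * u', α * α', ?_, ?_, hU.1.mul_left hU'.1, nsq_mul hU.2.1 hU'.2.1,
      fun P hP => us_mul (hU.2.2 P hP) (hU'.2.2 P hP)⟩
    · rw [QuotientGroup.mk_mul, hu, hu']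
    · rw [Units.val_mul, map_mul, hα, hα']
  have hLmul : ∀ ξ ∈ RcL D.T f, ∀ ξ' ∈ RcL D.T f, ξ * ξ' ∈ RcL D.T f := by
    rintro ξ ⟨u, α, hu, hα, hU, hl⟩ ξ' ⟨u', α', hu', hα', hU', hl'⟩
    refine ⟨u * u', α * α', ?_, ?_, ⟨hU.1.mul_left hU'.1, nsq_mul hU.2.1 hU'.2.1,
      fun P hP => us_mul (hU.2.2 P hP) (hU'.2.2 P hP)⟩, hL2M K D Y hOk f hf.1 α α' hl hl'⟩
    · rw [QuotientGroup.mk_mul, hu, hu']
    · rw [Units.val_mul, map_mul, hα, hα']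
  have hRone : (1 : Q) ∈ RcG K D.T f :=
    ⟨1, 1, rfl, by simp, isCoprime_one_left, nsq_one, fun P _ => us_one⟩
  have hLone : (1 : Q) ∈ RcL D.T f :=
    ⟨1, 1, rfl, by simp, ⟨isCoprime_one_left, nsq_one, fun P _ => us_one⟩,
      fun L _ O ι _ _ => by rw [Polynomial.map_one]; exact locSol_one _⟩
  have hLR : RcL D.T f ⊆ RcG K D.T f := by
    rintro ξ ⟨u, α, hu, hα, hU, -⟩
    exact ⟨u, α, hu, hα, hU⟩
  -- the type function
  have hex : ∀ ξ : Q, ∃ m : {P : HeightOneSpectrum (𝓞 K) // P ∈ D.T} → Ty, ξ ∈ RcG K D.T f →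
      ∀ P : {P : HeightOneSpectrum (𝓞 K) // P ∈ D.T}, TyX ξ P (m P) := by
    intro ξ
    by_cases hξ : ξ ∈ RcG K D.T f
    · have h3 : ∀ P : {P : HeightOneSpectrum (𝓞 K) // P ∈ D.T}, ∃ x : Ty, TyX ξ P x :=
        fun P => hRcT ξ hξ P P.2
      obtain ⟨m, hm⟩ := Classical.skolem.mp h3
      exact ⟨m, fun _ => hm⟩
    · exact ⟨0, fun h => absurd h hξ⟩
  obtain ⟨θ, hθ⟩ : ∃ θ : Q → ({P : HeightOneSpectrum (𝓞 K) // P ∈ D.T} → Ty), ∀ ξ,
      ξ ∈ RcG K D.T f → ∀ P : {P : HeightOneSpectrum (𝓞 K) // P ∈ D.T}, TyX ξ P (θ ξ P) :=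
    Classical.skolem.mp hex
  have hθu : ∀ ξ ∈ RcG K D.T f, ∀ m : {P : HeightOneSpectrum (𝓞 K) // P ∈ D.T} → Ty,
      (∀ P : {P : HeightOneSpectrum (𝓞 K) // P ∈ D.T}, TyX ξ P (m P)) → θ ξ = m := by
    intro ξ hξ m hm
    funext P
    exact huniq ξ P _ _ (hθ ξ hξ P) (hm P)
  have hone : θ 1 = 0 := by
    refine hθu 1 hRone 0 fun P => ?_
    have h3 := hθ 1 hRone P
    have h4 := htmul 1 1 P _ _ h3 h3
    rw [add_ty, cls_sq] at h4
    exact h4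
  have hmul : ∀ ξ ∈ RcG K D.T f, ∀ ξ' ∈ RcG K D.T f, θ (ξ * ξ') = θ ξ + θ ξ' := by
    intro ξ hξ ξ' hξ'
    exact hθu _ (hRmul ξ hξ ξ' hξ') _ fun P => htmul ξ ξ' P _ _ (hθ ξ hξ P) (hθ ξ' hξ' P)
  -- a nontrivial class gives a pattern
  have hpat : ∀ ξ ∈ RcG K D.T f, ξ ≠ 1 → PatN D ϖ (ex D.T (θ ξ)) f := by
    rintro ξ hξ hne
    obtain ⟨u, α, hu, hα, hU⟩ := hξ
    refine ⟨α, hU, ?_, ?_⟩
    · rintro ⟨s, hs⟩
      apply hne
      rw [← AdjoinRoot.mk_eq_mk, hα, map_pow] at hs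
      have hunit : IsUnit (AdjoinRoot.mk (fk K f) s) := by
        rw [← isUnit_pow_iff (two_ne_zero), ← hs]
        exact u.isUnit
      rw [← hu, QuotientGroup.eq_one_iff]
      refine ⟨hunit.unit, ?_⟩
      ext
      simp [hs]
    · intro P hP
      have e : ex D.T (θ ξ) P = θ ξ ⟨P, hP⟩ := by rw [ex, dif_pos hP]
      rw [e]
      exact hrep ξ P hP _ (hθ ξ ⟨u, α, hu, hα, hU⟩ ⟨P, hP⟩) u α hu hα
  have hinj : Set.InjOn θ (RcG K D.T f) := by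
    intro ξ hξ ξ' hξ' heq
    have h3 : θ (ξ * ξ') = 0 := by
      rw [hmul ξ hξ ξ' hξ', heq]
      funext P; exact add_ty _
    have h4 : ξ * ξ' = 1 := by
      by_contra hne
      have h5 := hpat _ (hRmul ξ hξ ξ' hξ') hne
      apply hPat
      have h6 : ex D.T (θ (ξ * ξ')) = fun _ => 0 := by
        funext P
        rw [h3, ex]
        split_ifs <;> rfl
      rw [h6] at h5
      exact h5
    rw [← inv_eq_self ξ']
    exact eq_inv_of_mul_eq_one_left h4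
  -- the group
  let M : AddSubgroup ({P : HeightOneSpectrum (𝓞 K) // P ∈ D.T} → Ty) :=
    { carrier := θ '' RcL D.T f
      zero_mem' := ⟨1, hLone, hone⟩
      add_mem' := by
        rintro _ _ ⟨ξ, hξ, rfl⟩ ⟨ξ', hξ', rfl⟩
        exact ⟨ξ * ξ', hLmul ξ hξ ξ' hξ', hmul ξ (hLR hξ) ξ' (hLR hξ')⟩
      neg_mem' := by
        rintro _ ⟨ξ, hξ, rfl⟩
        exact ⟨ξ, hξ, by funext P; exact (neg_ty _).symm⟩ }
  have hsing : ∀ m ∈ M, PRL.qf m = 0 := by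
    rintro _ ⟨ξ, hξ, rfl⟩
    obtain ⟨u, α, hu, hα, hU, hl⟩ := hξ
    have h3 := hRec D Y hOk hY hRam f hf.1 ϖ hUni α (ex D.T (θ ξ)) hU
      (hL2D K D Y hOk f hf.1 α hl) ?_
    · rw [← h3, PRL.qf, ← Finset.sum_coe_sort D.T]
      refine Finset.sum_congr rfl fun P _ => ?_
      have e : ex D.T (θ ξ) P = θ ξ P := by rw [ex, dif_pos P.2]
      rw [e]
    · intro P hP
      have e : ex D.T (θ ξ) P = θ ξ ⟨P, hP⟩ := by rw [ex, dif_pos hP]
      rw [e]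
      exact hrep ξ P hP _ (hθ ξ ⟨u, α, hu, hα, hU⟩ ⟨P, hP⟩) u α hu hα
  have hfinRc : (RcG K D.T f).Finite :=
    Set.Finite.of_finite_image (f := θ) (Set.toFinite _) hinj
  have hcard : Nat.card M = (RcL D.T f).ncard := by
    have h3 : Nat.card M = (θ '' RcL D.T f).ncard := rfl
    rw [h3, (hinj.mono hLR).ncard_image]
  have hle := card_le_of_sing M hsing
  have hge := hCg D Y hOk hY f hf hfinRc
  have hkc : Fintype.card {P : HeightOneSpectrum (𝓞 K) // P ∈ D.T} = D.T.card :=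
    Fintype.card_coe D.T
  have hMcard : Nat.card M = 2 ^ D.T.card := by
    rw [hkc] at hle
    rw [← hcard] at hge
    exact le_antisymm hle hge
  refine ⟨M, hsing, hMcard, ?_, ?_⟩
  · rintro _ ⟨ξ, hξ, rfl⟩ hne
    refine hpat ξ (hLR hξ) ?_
    rintro rfl
    exact hne hone
  · intro S hS d hd
    rw [hSLN K D Y hOk hY f hf.1 d hd.1.1]
    obtain ⟨e, he⟩ := hSGK (𝓞 K) K f d hm hd.1.1
    set A : Set Q := {ξ | ξ ∈ RcL D.T f ∧ ∀ P : {P : HeightOneSpectrum (𝓞 K) // P ∈ D.T},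
      ((P : HeightOneSpectrum (𝓞 K)) ∈ S → (θ ξ P).2 = 0) ∧
        ((P : HeightOneSpectrum (𝓞 K)) ∉ S → (θ ξ P).1 = 0)} with hA
    have hAR : A ⊆ RcG K D.T f := fun ξ hξ => hLR hξ.1
    have hSelA : SelG (fk K (f.scaleRoots d)) = e '' A := by
      ext ζ
      constructor
      · intro hζ
        refine ⟨e.symm ζ, ?_, e.apply_symm_apply ζ⟩
        obtain ⟨u, hu⟩ := QuotientGroup.mk_surjective (e.symm ζ)
        obtain ⟨α, hα⟩ := AdjoinRoot.mk_surjective (u : AdjoinRoot (fk K f))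
        have h5 := (he u α hα).mp (by rw [hu, e.apply_symm_apply]; exact hζ)
        have hc : IsCoprime α (fk K f) := cop_of_unit (by rw [hα]; exact u.isUnit)
        obtain ⟨⟨hU, hl⟩, hty⟩ := (hSELN K D Y hOk f hf ϖ hUni S hS d hd α hc h5.1).mp h5.2
        have hR : e.symm ζ ∈ RcL D.T f := ⟨u, α, hu, hα, hU, hl⟩
        refine ⟨hR, fun P => ?_⟩
        obtain ⟨x, hx, hx1, hx2⟩ := hty P P.2
        have e1 : θ (e.symm ζ) P = x :=
          huniq _ P _ _ (hθ _ (hLR hR) P) ⟨u, α, hu, hα, hc, h5.1, hx⟩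
        rw [e1]
        exact ⟨hx1, hx2⟩
      · rintro ⟨ξ, ⟨hR, hξ⟩, rfl⟩
        obtain ⟨u, α, hu, hα, hU, hl⟩ := hR
        have hR : ξ ∈ RcG K D.T f := ⟨u, α, hu, hα, hU⟩
        rw [← hu]
        refine (he u α hα).mpr ⟨hU.2.1, ?_⟩
        refine (hSELN K D Y hOk f hf ϖ hUni S hS d hd α hU.1
          hU.2.1).mpr ⟨⟨hU, hl⟩, fun P hP => ?_⟩
        exact ⟨θ ξ ⟨P, hP⟩, hrep ξ P hP _ (hθ ξ hR ⟨P, hP⟩) u α hu hα, (hξ ⟨P, hP⟩).1,
          (hξ ⟨P, hP⟩).2⟩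
    have hAfin : A.Finite := hfinRc.subset hAR
    have himg : {m | m ∈ M ∧ m ∈ PRL.LS (sb D.T S)} = θ '' A := by
      ext m
      constructor
      · rintro ⟨⟨ξ, hξ, rfl⟩, hLS⟩
        refine ⟨ξ, ⟨hξ, fun P => ⟨?_, ?_⟩⟩, rfl⟩
        · intro hPS
          have := hLS P
          rw [if_pos (by rw [sb, Finset.mem_filter]; exact ⟨Finset.mem_univ _, hPS⟩)] at this
          exact this
        · intro hPS
          have := hLS P
          rw [if_neg (by rw [sb, Finset.mem_filter]; exact fun h => hPS h.2)] at this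
          exact this
      · rintro ⟨ξ, hξ, rfl⟩
        refine ⟨⟨ξ, hξ.1, rfl⟩, fun P => ?_⟩
        by_cases hPS : (P : HeightOneSpectrum (𝓞 K)) ∈ S
        · rw [if_pos (by rw [sb, Finset.mem_filter]; exact ⟨Finset.mem_univ _, hPS⟩)]
          exact (hξ.2 P).1 hPS
        · rw [if_neg (by rw [sb, Finset.mem_filter]; exact fun h => hPS h.2)]
          exact (hξ.2 P).2 hPS
    refine ⟨?_, ?_⟩
    · rw [hSelA]; exact hAfin.image _
    · rw [hSelA, Set.ncard_image_of_injective _ e.injective, himg,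
        (hinj.mono hAR).ncard_image]

end Pool.PNF
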